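import Pool.Agent.Helper72.LS.L1

/-!
LS-P1: changing one edge.
-/

namespace Pool.Agent.Helper51.LS

open Finset
open scoped Classical
open Pool.Agent.Helper72.LS

/-- the indicator of the ordered pairs `(u,v)`, `(v,u)` -/
noncomputable def ee {V : Type} (u v x y : V) : ℤ :=
  (if x = u then 1 else 0) * (if y = v then 1 else 0)
    + (if x = v then 1 else 0) * (if y = u then 1 else 0)

theorem sum_ee {V : Type} [Fintype V] (u v : V) (f : V → V → ℤ) :
    ∑ x, ∑ y, ee u v x y * f x y = f u v + f v u := by
  unfold ee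
  simp only [add_mul, Finset.sum_add_distrib, ite_mul, one_mul, zero_mul]
  congr 1 <;>
  · rw [Finset.sum_congr rfl (fun x _ => Finset.sum_ite_irrel (x = _) _ _ _)]
    simp

theorem ad_symm {V : Type} (G : SimpleGraph V) (x y : V) : ad G x y = ad G y x := by
  unfold ad
  simp only [G.adj_comm x y]

theorem ad_self {V : Type} (G : SimpleGraph V) (x : V) : ad G x x = 0 := by
  unfold ad
  simp

theorem ee_self {V : Type} {u v : V} (huv : u ≠ v) (x : V) : ee u v x x = 0 := by
  unfold ee
  by_cases h1 : x = u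
  · subst h1; simp [huv]
  · simp [h1]

theorem ee_mul {V : Type} {u v : V} (huv : u ≠ v) (x y z : V) (hxz : x ≠ z) :
    ee u v x y * ee u v y z = 0 := by
  unfold ee
  by_cases h1 : x = u
  · subst h1
    by_cases h2 : y = v
    · subst h2
      have : ¬ z = x := fun h => hxz h.symm
      simp [this, huv.symm]
    · simp [h2, huv]
  · by_cases h3 : x = v
    · subst h3
      by_cases h2 : y = u
      · subst h2
        have : ¬ z = x := fun h => hxz h.symm
        simp [this, huv]
      · simp [h1, h2]
    · simp [h1, h3]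

theorem ee_symm {V : Type} (u v x y : V) : ee u v x y = ee u v y x := by
  unfold ee
  ring

theorem change {V : Type} [Fintype V] (G Γ : SimpleGraph V) {u v : V} (huv : u ≠ v) (s : ℤ)
    (h : ∀ x y, ad Γ x y = ad G x y + s * ee u v x y) :
    em Γ = em G + s ∧ tm Γ = tm G + s * co G u v := by
  have hem : 2 * em Γ = 2 * em G + 2 * s := by
    rw [two_em, two_em]
    have : ∀ x y, ad Γ x y = ad G x y + ee u v x y * s := fun x y => by rw [h]; ring
    simp only [this, Finset.sum_add_distrib]
    rw [sum_ee u v (fun _ _ => s)]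
    ring
  have hpt : ∀ x y z, ad Γ x y * ad Γ y z * ad Γ x z
      = ad G x y * ad G y z * ad G x z + (s * (ee u v x y * (ad G y z * ad G x z))
        + s * (ee u v y z * (ad G x y * ad G x z))
        + s * (ee u v x z * (ad G x y * ad G y z))) := by
    intro x y z
    rw [h, h, h]
    by_cases hxz : x = z
    · subst hxz
      rw [ad_self, ee_self huv]
      ring
    · by_cases hxy : x = y
      · subst hxy
        rw [ad_self, ee_self huv]
        ring
      · by_cases hyz : y = z
        · subst hyz
          rw [ad_self, ee_self huv]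
          ring
        · have e1 := ee_mul huv x y z hxz
          have e2 : ee u v x y * ee u v x z = 0 := by
            rw [ee_symm u v x y]; exact ee_mul huv y x z hyz
          have e3 : ee u v y z * ee u v x z = 0 := by
            rw [ee_symm u v x z]; exact ee_mul huv y z x (fun h => hxy h.symm)
          linear_combination (s ^ 2 * ad G x z + s ^ 3 * ee u v x z) * e1
            + s ^ 2 * ad G y z * e2 + s ^ 2 * ad G x y * e3
  have hc : co G u v = ∑ z, ad G v z * ad G u z :=
    Finset.sum_congr rfl fun z _ => mul_comm _ _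
  have s1 : ∑ x, ∑ y, ∑ z, ee u v x y * (ad G y z * ad G x z) = 2 * co G u v := by
    have := sum_ee u v (fun x y => ∑ z, ad G y z * ad G x z)
    simp only [Finset.mul_sum] at this
    rw [this, ← hc, two_mul]
    rfl
  have s2 : ∑ x, ∑ y, ∑ z, ee u v y z * (ad G x y * ad G x z) = 2 * co G u v := by
    have : ∀ x, ∑ y, ∑ z, ee u v y z * (ad G x y * ad G x z)
        = 2 * (ad G u x * ad G v x) := by
      intro x
      rw [sum_ee u v (fun y z => ad G x y * ad G x z), ad_symm G x u, ad_symm G x v]
      ring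
    rw [Finset.sum_congr rfl fun x _ => this x, ← Finset.mul_sum]
    rfl
  have s3 : ∑ x, ∑ y, ∑ z, ee u v x z * (ad G x y * ad G y z) = 2 * co G u v := by
    have h1 : ∀ x, ∑ y, ∑ z, ee u v x z * (ad G x y * ad G y z)
        = ∑ z, ∑ y, ee u v x z * (ad G x y * ad G y z) := fun x => Finset.sum_comm
    rw [Finset.sum_congr rfl fun x _ => h1 x]
    have := sum_ee u v (fun x z => ∑ y, ad G x y * ad G y z)
    simp only [Finset.mul_sum] at this
    rw [this]
    have e1 : ∑ y, ad G u y * ad G y v = co G u v :=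
      Finset.sum_congr rfl fun y _ => by rw [ad_symm G y v]
    have e2 : ∑ y, ad G v y * ad G y u = co G u v := by
      rw [hc]
      exact Finset.sum_congr rfl fun y _ => by rw [ad_symm G y u]
    rw [e1, e2]
    ring
  have htm : 6 * tm Γ = 6 * tm G + 6 * (s * co G u v) := by
    rw [six_tm, six_tm]
    simp only [hpt, Finset.sum_add_distrib, ← Finset.mul_sum]
    simp only [← Finset.mul_sum] at s1 s2 s3
    rw [s1, s2, s3]
    ring
  exact ⟨by linarith, by linarith⟩

theorem op_del_edge {V : Type} [Fintype V] (G : SimpleGraph V) {u v : V} (h : G.Adj u v) :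
    ∃ Γ : SimpleGraph V, em Γ = em G - 1 ∧ tm Γ = tm G - co G u v := by
  have huv : u ≠ v := h.ne
  let Γ : SimpleGraph V :=
    { Adj := fun x y => G.Adj x y ∧ ¬ ((x = u ∧ y = v) ∨ (x = v ∧ y = u))
      symm := ⟨fun x y hxy => ⟨hxy.1.symm, fun hc => hxy.2 (by tauto)⟩⟩
      loopless := ⟨fun x hx => G.loopless.irrefl x hx.1⟩ }
  have key : ∀ x y, ad Γ x y = ad G x y + (-1) * ee u v x y := by
    intro x y
    have hA : Γ.Adj x y ↔ (G.Adj x y ∧ ¬ ((x = u ∧ y = v) ∨ (x = v ∧ y = u))) := Iff.rfl
    unfold ad ee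
    simp only [hA]
    by_cases h1 : x = u
    · by_cases h2 : y = v
      · subst h1 h2
        simp [h, huv]
      · have h3 : ¬ x = v := fun h' => huv (h1.symm.trans h')
        simp [h2, h3]
    · by_cases h3 : x = v
      · by_cases h4 : y = u
        · subst h3 h4
          simp [h.symm, huv.symm]
        · simp [h1, h4]
      · simp [h1, h3]
  obtain ⟨h1, h2⟩ := change G Γ huv (-1) key
  exact ⟨Γ, by rw [h1]; ring, by rw [h2]; ring⟩

theorem op_add_edge {V : Type} [Fintype V] (G : SimpleGraph V) {u v : V} (h : ¬ G.Adj u v)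
    (huv : u ≠ v) :
    ∃ Γ : SimpleGraph V, em Γ = em G + 1 ∧ tm Γ = tm G + co G u v := by
  let Γ : SimpleGraph V :=
    { Adj := fun x y => G.Adj x y ∨ ((x = u ∧ y = v) ∨ (x = v ∧ y = u))
      symm := ⟨fun x y hxy => by
        rcases hxy with hxy | hxy
        · exact Or.inl hxy.symm
        · exact Or.inr (by tauto)⟩
      loopless := ⟨fun x hx => by
        rcases hx with hx | hx | hx
        · exact G.loopless.irrefl x hx
        · exact huv (hx.1.symm.trans hx.2)
        · exact huv (hx.2.symm.trans hx.1)⟩ }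
  have key : ∀ x y, ad Γ x y = ad G x y + 1 * ee u v x y := by
    intro x y
    have hA : Γ.Adj x y ↔ (G.Adj x y ∨ ((x = u ∧ y = v) ∨ (x = v ∧ y = u))) := Iff.rfl
    unfold ad ee
    simp only [hA]
    by_cases h1 : x = u
    · by_cases h2 : y = v
      · subst h1 h2
        simp [h, huv]
      · have h3 : ¬ x = v := fun h' => huv (h1.symm.trans h')
        simp [h2, h3]
    · by_cases h3 : x = v
      · by_cases h4 : y = u
        · subst h3 h4
          have h' : ¬ G.Adj x y := fun hh => h hh.symm
          simp [h', huv.symm]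
        · simp [h1, h4]
      · simp [h1, h3]
  obtain ⟨h1, h2⟩ := change G Γ huv 1 key
  exact ⟨Γ, h1, by rw [h2]; ring⟩

/-- deleting an edge inside the subgraph induced on `S` -/
theorem op_del_edge_in {V : Type} [Fintype V] (G : SimpleGraph V) (S : Finset V) {u v : V}
    (hu : u ∈ S) (hv : v ∈ S) (h : G.Adj u v) :
    ∃ Γ : SimpleGraph (S : Set V), em Γ = eI G S - 1 ∧
      tm Γ = tI G S - ∑ x ∈ S, ad G u x * ad G v x := by
  have h' : (G.induce (S : Set V)).Adj ⟨u, hu⟩ ⟨v, hv⟩ := h
  obtain ⟨Γ, h1, h2⟩ := op_del_edge (G.induce (S : Set V)) h'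
  refine ⟨Γ, h1, ?_⟩
  rw [h2]
  unfold tI
  congr 1
  unfold co
  rw [← Finset.sum_coe_sort S (fun x => ad G u x * ad G v x)]
  rfl

end Pool.Agent.Helper51.LS
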